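import Mathlib

/-!
# Shortest flip paths may flip a common contact point / a common edge (MP_1d99bd)

We disprove the question of Pilaud and Pocchiola: a shortest path in the flip graph of
`k`-triangulations of a convex polygon (equivalently, by universality, in the flip graph of the
pseudoline arrangements with a given support) may flip an edge (contact point) that is common
to its two end points.

* Part (A): two 2-triangulations of the convex octagon.
* Part (B): the same phenomenon directly for pseudoline arrangements with contact points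
  supported by a primitive sorting network with four levels and twelve commutators.
-/

namespace Pool.Agent.Results.MP_1d99bd_co.CommonFlip

/-! ### `k`-triangulations of a convex polygon -/

/-- A side or diagonal of the convex `n`-gon with vertices `0, …, n-1` in cyclic order is a pair
`(i, j)` with `i < j`.  Two of them *cross* if their end points alternate. -/
def Crosses {n : ℕ} (e f : Fin n × Fin n) : Prop :=
  (e.1 < f.1 ∧ f.1 < e.2 ∧ e.2 < f.2) ∨ (f.1 < e.1 ∧ e.1 < f.2 ∧ f.2 < e.2)

/-- `T` contains an `l`-crossing, i.e. `l` pairwise crossing edges. -/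
def HasCrossing {n : ℕ} (l : ℕ) (T : Finset (Fin n × Fin n)) : Prop :=
  ∃ C : Finset (Fin n × Fin n), C ⊆ T ∧ C.card = l ∧ (C : Set (Fin n × Fin n)).Pairwise Crosses

/-- A `k`-triangulation of the convex `n`-gon: an inclusion-maximal set of edges (sides and
diagonals) without `k + 1` pairwise crossing elements. -/
def IsKTriangulation (k n : ℕ) (T : Finset (Fin n × Fin n)) : Prop :=
  Maximal (fun U : Finset (Fin n × Fin n) => (∀ e ∈ U, e.1 < e.2) ∧ ¬ HasCrossing (k + 1) U) T

/-- The type of `k`-triangulations of the convex `n`-gon. -/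
abbrev KTriangulation (k n : ℕ) : Type := {T : Finset (Fin n × Fin n) // IsKTriangulation k n T}

/-- The flip graph on the `k`-triangulations of the convex `n`-gon: two of them are adjacent if
they differ by the exchange of exactly one edge. -/
def triFlipGraph (k n : ℕ) : SimpleGraph (KTriangulation k n) where
  Adj T T' := (T.1 \ T'.1).card = 1 ∧ (T'.1 \ T.1).card = 1
  symm := ⟨fun _ _ h => ⟨h.2, h.1⟩⟩
  loopless := ⟨fun T h => by simp at h⟩

/-! ### Pseudoline arrangements with contact points, supported by a sorting network -/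

/-- A network with `m + 1` horizontal levels and `L` commutators: the `t`-th commutator
(from left to right) joins the levels `Q t` and `Q t + 1`.  For a set `C` of commutators
(the contacts), `lineAt Q C t l` is the pseudoline found at level `l` just before the `t`-th
commutator, pseudolines being labelled by their level at the left end; two pseudolines
meeting at a commutator exchange their levels (cross) if it is not in `C`, and do not exchange
their levels (touch) if it is in `C`. -/
def lineAt {m L : ℕ} (Q : Fin L → Fin m) (C : Finset (Fin L)) :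
    (t : ℕ) → t ≤ L → Equiv.Perm (Fin (m + 1))
  | 0, _ => 1
  | t + 1, h =>
      if (⟨t, h⟩ : Fin L) ∈ C then lineAt Q C t (Nat.le_of_succ_le h)
      else lineAt Q C t (Nat.le_of_succ_le h) *
        Equiv.swap (Q ⟨t, h⟩).castSucc (Q ⟨t, h⟩).succ

/-- The two pseudolines that meet (cross or touch) at commutator `t`. -/
def pairAt {m L : ℕ} (Q : Fin L → Fin m) (C : Finset (Fin L)) (t : Fin L) :
    Finset (Fin (m + 1)) :=
  {lineAt Q C t t.2.le (Q t).castSucc, lineAt Q C t t.2.le (Q t).succ}

/-- `C` is the set of contact points of a pseudoline arrangement supported by the network `Q`: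
any two pseudolines cross exactly once (all their other meeting points are contacts). -/
def IsArrangement {m L : ℕ} (Q : Fin L → Fin m) (C : Finset (Fin L)) : Prop :=
  ∀ a b : Fin (m + 1), a ≠ b → ∃! w : Fin L, w ∉ C ∧ pairAt Q C w = {a, b}

/-- The pseudoline arrangements supported by the network `Q`, given by their contact points. -/
abbrev Arrangement {m L : ℕ} (Q : Fin L → Fin m) : Type :=
  {C : Finset (Fin L) // IsArrangement Q C}

/-- `C'` is obtained from the arrangement `C` by flipping the contact point `v` of two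
pseudolines, whose crossing point is `w`: `v` becomes a crossing and `w` a contact. -/
def IsFlip {m L : ℕ} (Q : Fin L → Fin m) (C C' : Finset (Fin L)) : Prop :=
  ∃ v ∈ C, ∃ w ∉ C, pairAt Q C v = pairAt Q C w ∧ C' = insert w (C.erase v)

/-- The flip graph of the pseudoline arrangements supported by `Q`. -/
def arrFlipGraph {m L : ℕ} (Q : Fin L → Fin m) : SimpleGraph (Arrangement Q) :=
  SimpleGraph.fromRel (fun C C' => IsFlip Q C.1 C'.1)

/-- Some shortest path in the graph `G` (between `T` and `T'`) has a step that removes an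
element `v` common to its end points, `f X` being the set of edges (contact points) of `X`. -/
def ShortestPathFlipsCommon {V α : Type} (G : SimpleGraph V) (f : V → Finset α) : Prop :=
  ∃ (T T' : V) (v : α) (p : G.Walk T T'), v ∈ f T ∧ v ∈ f T' ∧ p.length = G.dist T T' ∧
    ∃ d ∈ p.darts, v ∈ f d.fst ∧ v ∉ f d.snd

/-! ### A lower bound for distances -/

theorem four_le_length {α : Type} [DecidableEq α] {P : Finset α → Prop}
    (G : SimpleGraph {T // P T})
    (hG : ∀ X Y : {T // P T}, G.Adj X Y → ∃ a ∈ X.1, ∃ b ∉ X.1, Y.1 = insert b (X.1.erase a))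
    (T U : {T // P T}) (h3 : (T.1 \ U.1).card = 3)
    (hno : ∀ a ∈ T.1 \ U.1, ∀ b ∈ U.1 \ T.1, ¬ P (insert b (T.1.erase a)))
    (p : G.Walk T U) : 4 ≤ p.length := by
  have step : ∀ X Y : {T // P T}, G.Adj X Y → (X.1 \ Y.1).card ≤ 1 := by
    intro X Y h
    obtain ⟨a, ha, b, hb, hY⟩ := hG X Y h
    have : X.1 \ Y.1 ⊆ {a} := by
      intro x hx
      rw [Finset.mem_sdiff] at hx
      rw [Finset.mem_singleton]
      by_contra hne
      exact hx.2 (by rw [hY]; exact Finset.mem_insert_of_mem (Finset.mem_erase.2 ⟨hne, hx.1⟩))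
    calc (X.1 \ Y.1).card ≤ ({a} : Finset α).card := Finset.card_le_card this
      _ = 1 := by simp
  have tri : ∀ X Y Z : Finset α, (X \ Z).card ≤ (X \ Y).card + (Y \ Z).card := by
    intro X Y Z
    calc (X \ Z).card ≤ ((X \ Y) ∪ (Y \ Z)).card := by
          apply Finset.card_le_card
          intro x hx
          simp only [Finset.mem_sdiff, Finset.mem_union] at hx ⊢
          tauto
      _ ≤ _ := Finset.card_union_le _ _
  cases p with
  | nil => simp at h3
  | @cons _ X _ h1 p1 =>
    have s1 := step _ _ h1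
    cases p1 with
    | nil => omega
    | @cons _ Y _ h2 p2 =>
      have s2 := step _ _ h2
      have t1 := tri T.1 X.1 Y.1
      cases p2 with
      | nil => omega
      | @cons _ Z _ h3' p3 =>
        have s3 := step _ _ h3'
        have t2 := tri T.1 X.1 Z.1
        have t3 := tri X.1 Y.1 Z.1
        cases p3 with
        | nil =>
          exfalso
          obtain ⟨a, ha, b, hb, hX⟩ := hG _ _ h1
          have hXU : (X.1 \ U.1).card ≤ 2 := by omega
          have haU : a ∉ U.1 := by
            intro haU
            have : T.1 \ U.1 ⊆ X.1 \ U.1 := by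
              intro x hx
              rw [Finset.mem_sdiff] at hx ⊢
              refine ⟨?_, hx.2⟩
              rw [hX]
              exact Finset.mem_insert_of_mem
                (Finset.mem_erase.2 ⟨fun h => hx.2 (h ▸ haU), hx.1⟩)
            have := Finset.card_le_card this
            omega
          have hbU : b ∈ U.1 := by
            by_contra hbU
            have hsub : insert b ((T.1 \ U.1).erase a) ⊆ X.1 \ U.1 := by
              intro x hx
              rw [Finset.mem_insert] at hx
              rw [Finset.mem_sdiff, hX]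
              rcases hx with rfl | hx
              · exact ⟨Finset.mem_insert_self _ _, hbU⟩
              · rw [Finset.mem_erase, Finset.mem_sdiff] at hx
                exact ⟨Finset.mem_insert_of_mem (Finset.mem_erase.2 ⟨hx.1, hx.2.1⟩), hx.2.2⟩
            have h4 := Finset.card_le_card hsub
            have h5 : b ∉ (T.1 \ U.1).erase a := by
              intro h
              rw [Finset.mem_erase, Finset.mem_sdiff] at h
              exact hb h.2.1
            rw [Finset.card_insert_of_notMem h5,
              Finset.card_erase_of_mem (Finset.mem_sdiff.2 ⟨ha, haU⟩)] at h4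
            omega
          exact hno a (Finset.mem_sdiff.2 ⟨ha, haU⟩) b (Finset.mem_sdiff.2 ⟨hbU, hb⟩)
            (hX ▸ X.2)
        | cons h4 p4 => simp only [SimpleGraph.Walk.length_cons]; omega

/-! ### Part (A): the octagon -/

instance {n : ℕ} (e f : Fin n × Fin n) : Decidable (Crosses e f) := by
  unfold Crosses; infer_instance

theorem Crosses.ne {n : ℕ} {e f : Fin n × Fin n} (h : Crosses e f) : e ≠ f := by
  rintro rfl
  rcases h with h | h
  · exact lt_irrefl _ h.1
  · exact lt_irrefl _ h.1

theorem Crosses.symm {n : ℕ} {e f : Fin n × Fin n} (h : Crosses e f) : Crosses f e :=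
  Or.symm h

/-- Three pairwise crossing edges in `S`. -/
def Has3 {n : ℕ} (S : Finset (Fin n × Fin n)) : Prop :=
  ∃ x ∈ S, ∃ y ∈ S, Crosses x y ∧ ∃ z ∈ S, Crosses x z ∧ Crosses y z

instance {n : ℕ} (S : Finset (Fin n × Fin n)) : Decidable (Has3 S) := by
  unfold Has3; infer_instance

theorem hasCrossing_three {n : ℕ} (S : Finset (Fin n × Fin n)) :
    HasCrossing 3 S ↔ Has3 S := by
  constructor
  · rintro ⟨C, hC, hcard, hpair⟩
    obtain ⟨x, y, z, hxy, hxz, hyz, rfl⟩ := Finset.card_eq_three.1 hcard
    refine ⟨x, hC (by simp), y, hC (by simp), hpair (by simp) (by simp) hxy, z, hC (by simp),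
      hpair (by simp) (by simp) hxz, hpair (by simp) (by simp) hyz⟩
  · rintro ⟨x, hx, y, hy, hxy, z, hz, hxz, hyz⟩
    refine ⟨{x, y, z}, ?_, ?_, ?_⟩
    · intro w hw
      simp only [Finset.mem_insert, Finset.mem_singleton] at hw
      rcases hw with rfl | rfl | rfl <;> assumption
    · exact Finset.card_eq_three.2 ⟨x, y, z, hxy.ne, hxz.ne, hyz.ne, rfl⟩
    · intro a ha b hb hab
      simp only [Finset.coe_insert, Finset.coe_singleton, Set.mem_insert_iff,
        Set.mem_singleton_iff] at ha hb
      rcases ha with rfl | rfl | rfl <;> rcases hb with rfl | rfl | rfl <;>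
        first
          | exact absurd rfl hab
          | assumption
          | (apply Crosses.symm; assumption)

theorem isKTriangulation_of {n : ℕ} (T : Finset (Fin n × Fin n))
    (h1 : ∀ e ∈ T, e.1 < e.2) (h2 : ¬ Has3 T)
    (h3 : ∀ e : Fin n × Fin n, e.1 < e.2 → e ∉ T → Has3 (insert e T)) :
    IsKTriangulation 2 n T := by
  refine ⟨⟨h1, fun h => h2 ((hasCrossing_three _).1 h)⟩, ?_⟩
  rintro U ⟨hU1, hU2⟩ hTU e he
  by_contra heT
  obtain ⟨C, hC, hc⟩ := (hasCrossing_three _).2 (h3 e (hU1 e he) heT)
  refine hU2 ⟨C, hC.trans ?_, hc⟩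
  intro x hx
  rcases Finset.mem_insert.1 hx with rfl | hx
  · exact he
  · exact hTU hx

theorem not_isKTriangulation_of {n : ℕ} (T : Finset (Fin n × Fin n)) (h : Has3 T) :
    ¬ IsKTriangulation 2 n T :=
  fun hT => hT.1.2 ((hasCrossing_three _).2 h)

/-- The sixteen edges of the octagon that cross no two crossing edges. -/
def short : List (Fin 8 × Fin 8) :=
  [(0, 1), (1, 2), (2, 3), (3, 4), (4, 5), (5, 6), (6, 7), (0, 7),
    (0, 2), (1, 3), (2, 4), (3, 5), (4, 6), (5, 7), (0, 6), (1, 7)]

/-- The set of edges consisting of the short ones and those of `l`. -/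
def full (l : List (Fin 8 × Fin 8)) : Finset (Fin 8 × Fin 8) := (short ++ l).toFinset

def T0 := full [(0, 3), (0, 4), (0, 5), (1, 4), (3, 6), (3, 7)]
def T1 := full [(0, 3), (0, 4), (0, 5), (1, 4), (1, 6), (3, 6)]
def T2 := full [(0, 3), (0, 4), (0, 5), (1, 6), (2, 6), (3, 6)]
def T3 := full [(0, 3), (0, 5), (1, 6), (2, 5), (2, 6), (3, 6)]
def T4 := full [(0, 3), (1, 6), (2, 5), (2, 6), (3, 6), (3, 7)]

theorem T0_tri : IsKTriangulation 2 8 T0 :=
  isKTriangulation_of _ (by decide +kernel) (by decide +kernel) (by decide +kernel)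
theorem T1_tri : IsKTriangulation 2 8 T1 :=
  isKTriangulation_of _ (by decide +kernel) (by decide +kernel) (by decide +kernel)
theorem T2_tri : IsKTriangulation 2 8 T2 :=
  isKTriangulation_of _ (by decide +kernel) (by decide +kernel) (by decide +kernel)
theorem T3_tri : IsKTriangulation 2 8 T3 :=
  isKTriangulation_of _ (by decide +kernel) (by decide +kernel) (by decide +kernel)
theorem T4_tri : IsKTriangulation 2 8 T4 :=
  isKTriangulation_of _ (by decide +kernel) (by decide +kernel) (by decide +kernel)

theorem tri_exchange {k n : ℕ} (X Y : KTriangulation k n) (h : (triFlipGraph k n).Adj X Y) :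
    ∃ a ∈ X.1, ∃ b ∉ X.1, Y.1 = insert b (X.1.erase a) := by
  obtain ⟨h1, h2⟩ := h
  obtain ⟨a, ha⟩ := Finset.card_eq_one.1 h1
  obtain ⟨b, hb⟩ := Finset.card_eq_one.1 h2
  have ha' : a ∈ X.1 \ Y.1 := by rw [ha]; exact Finset.mem_singleton_self _
  have hb' : b ∈ Y.1 \ X.1 := by rw [hb]; exact Finset.mem_singleton_self _
  rw [Finset.mem_sdiff] at ha' hb'
  refine ⟨a, ha'.1, b, hb'.2, ?_⟩
  ext x
  have hxa : x ∈ X.1 \ Y.1 ↔ x = a := by rw [ha]; exact Finset.mem_singleton
  have hxb : x ∈ Y.1 \ X.1 ↔ x = b := by rw [hb]; exact Finset.mem_singleton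
  rw [Finset.mem_sdiff] at hxa hxb
  rw [Finset.mem_insert, Finset.mem_erase]
  tauto

theorem octagon : ShortestPathFlipsCommon (triFlipGraph 2 8) Subtype.val := by
  have a01 : (triFlipGraph 2 8).Adj ⟨T0, T0_tri⟩ ⟨T1, T1_tri⟩ := by
    constructor <;> decide +kernel
  have a12 : (triFlipGraph 2 8).Adj ⟨T1, T1_tri⟩ ⟨T2, T2_tri⟩ := by
    constructor <;> decide +kernel
  have a23 : (triFlipGraph 2 8).Adj ⟨T2, T2_tri⟩ ⟨T3, T3_tri⟩ := by
    constructor <;> decide +kernel
  have a34 : (triFlipGraph 2 8).Adj ⟨T3, T3_tri⟩ ⟨T4, T4_tri⟩ := by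
    constructor <;> decide +kernel
  refine ⟨⟨T0, T0_tri⟩, ⟨T4, T4_tri⟩, (3, 7),
    .cons a01 (.cons a12 (.cons a23 (.cons a34 .nil))), ?_, ?_, ?_,
    ⟨(⟨T0, T0_tri⟩, ⟨T1, T1_tri⟩), a01⟩, ?_, ?_, ?_⟩
  · show (3, 7) ∈ T0
    decide +kernel
  · show (3, 7) ∈ T4
    decide +kernel
  · apply le_antisymm
    · obtain ⟨q, hq⟩ := (SimpleGraph.Walk.reachable
        (.cons a01 (.cons a12 (.cons a23 (.cons a34 .nil))) :
          (triFlipGraph 2 8).Walk ⟨T0, T0_tri⟩ ⟨T4, T4_tri⟩)).exists_walk_length_eq_dist
      rw [← hq]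
      refine four_le_length _ tri_exchange _ _ (by decide +kernel) ?_ q
      intro a ha b hb
      apply not_isKTriangulation_of
      revert a b
      decide +kernel
    · exact SimpleGraph.dist_le _
  · simp [SimpleGraph.Walk.darts_cons]
  · show (3, 7) ∈ T0
    decide +kernel
  · show (3, 7) ∉ T1
    decide +kernel

/-! ### Part (B): pseudoline arrangements supported by a network -/

instance {m L : ℕ} (Q : Fin L → Fin m) (C C' : Finset (Fin L)) : Decidable (IsFlip Q C C') := by
  unfold IsFlip; infer_instance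

/-- The network with four levels and the commutators `0,1,2,0,1,2,0,1,2,0,1,0`. -/
def Q0 : Fin 12 → Fin 3 := ![0, 1, 2, 0, 1, 2, 0, 1, 2, 0, 1, 0]

/-- A decidable form of `IsArrangement`. -/
def ArrDec {m L : ℕ} (Q : Fin L → Fin m) (C : Finset (Fin L)) : Prop :=
  ∀ a b : Fin (m + 1), a ≠ b →
    (Finset.univ.filter (fun w : Fin L => w ∉ C ∧ pairAt Q C w = {a, b})).card = 1

instance {m L : ℕ} (Q : Fin L → Fin m) (C : Finset (Fin L)) : Decidable (ArrDec Q C) := by
  unfold ArrDec; infer_instance

theorem isArrangement_iff {m L : ℕ} (Q : Fin L → Fin m) (C : Finset (Fin L)) :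
    IsArrangement Q C ↔ ArrDec Q C := by
  unfold IsArrangement ArrDec
  refine forall_congr' fun a => forall_congr' fun b => imp_congr_right fun _ => ?_
  rw [Finset.card_eq_one]
  constructor
  · rintro ⟨w, hw, huniq⟩
    refine ⟨w, ?_⟩
    ext x
    simp only [Finset.mem_filter, Finset.mem_univ, true_and, Finset.mem_singleton]
    exact ⟨fun hx => huniq x hx, fun hx => hx ▸ hw⟩
  · rintro ⟨w, hw⟩
    have key : ∀ x, (x ∉ C ∧ pairAt Q C x = {a, b}) ↔ x = w := by
      intro x
      have := congrArg (fun S => x ∈ S) hw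
      simpa using this
    exact ⟨w, (key w).2 rfl, fun x hx => (key x).1 hx⟩

def C0 : Finset (Fin 12) := {0, 5, 7, 9, 10, 11}
def C1 : Finset (Fin 12) := {0, 3, 5, 9, 10, 11}
def C2 : Finset (Fin 12) := {0, 3, 4, 5, 9, 10}
def C3 : Finset (Fin 12) := {0, 2, 3, 4, 5, 9}
def C4 : Finset (Fin 12) := {2, 3, 4, 5, 7, 9}

theorem C0_arr : IsArrangement Q0 C0 := (isArrangement_iff _ _).2 (by decide +kernel)
theorem C1_arr : IsArrangement Q0 C1 := (isArrangement_iff _ _).2 (by decide +kernel)
theorem C2_arr : IsArrangement Q0 C2 := (isArrangement_iff _ _).2 (by decide +kernel)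
theorem C3_arr : IsArrangement Q0 C3 := (isArrangement_iff _ _).2 (by decide +kernel)
theorem C4_arr : IsArrangement Q0 C4 := (isArrangement_iff _ _).2 (by decide +kernel)

theorem arr_exchange {m L : ℕ} (Q : Fin L → Fin m) (X Y : Arrangement Q)
    (h : (arrFlipGraph Q).Adj X Y) : ∃ a ∈ X.1, ∃ b ∉ X.1, Y.1 = insert b (X.1.erase a) := by
  obtain ⟨_, h | h⟩ := h
  · obtain ⟨v, hv, w, hw, _, h⟩ := h
    exact ⟨v, hv, w, hw, h⟩
  · obtain ⟨v, hv, w, hw, _, h⟩ := h
    have hvw : v ≠ w := by rintro rfl; exact hw hv
    refine ⟨w, by rw [h]; exact Finset.mem_insert_self _ _, v, ?_, ?_⟩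
    · rw [h]
      intro hmem
      rcases Finset.mem_insert.1 hmem with h' | h'
      · exact hvw h'
      · exact (Finset.mem_erase.1 h').1 rfl
    · rw [h, Finset.erase_insert (fun h' => hw (Finset.mem_erase.1 h').2),
        Finset.insert_erase hv]

theorem network : ShortestPathFlipsCommon (arrFlipGraph Q0) Subtype.val := by
  have a01 : (arrFlipGraph Q0).Adj ⟨C0, C0_arr⟩ ⟨C1, C1_arr⟩ := by
    refine ⟨?_, Or.inl ?_⟩
    · intro h; exact absurd (congrArg Subtype.val h) (by decide +kernel)
    · show IsFlip Q0 C0 C1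
      decide +kernel
  have a12 : (arrFlipGraph Q0).Adj ⟨C1, C1_arr⟩ ⟨C2, C2_arr⟩ := by
    refine ⟨?_, Or.inl ?_⟩
    · intro h; exact absurd (congrArg Subtype.val h) (by decide +kernel)
    · show IsFlip Q0 C1 C2
      decide +kernel
  have a23 : (arrFlipGraph Q0).Adj ⟨C2, C2_arr⟩ ⟨C3, C3_arr⟩ := by
    refine ⟨?_, Or.inl ?_⟩
    · intro h; exact absurd (congrArg Subtype.val h) (by decide +kernel)
    · show IsFlip Q0 C2 C3
      decide +kernel
  have a34 : (arrFlipGraph Q0).Adj ⟨C3, C3_arr⟩ ⟨C4, C4_arr⟩ := by
    refine ⟨?_, Or.inl ?_⟩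
    · intro h; exact absurd (congrArg Subtype.val h) (by decide +kernel)
    · show IsFlip Q0 C3 C4
      decide +kernel
  refine ⟨⟨C0, C0_arr⟩, ⟨C4, C4_arr⟩, 7,
    .cons a01 (.cons a12 (.cons a23 (.cons a34 .nil))), ?_, ?_, ?_,
    ⟨(⟨C0, C0_arr⟩, ⟨C1, C1_arr⟩), a01⟩, ?_, ?_, ?_⟩
  · show (7 : Fin 12) ∈ C0
    decide +kernel
  · show (7 : Fin 12) ∈ C4
    decide +kernel
  · apply le_antisymm
    · obtain ⟨q, hq⟩ := (SimpleGraph.Walk.reachable
        (.cons a01 (.cons a12 (.cons a23 (.cons a34 .nil))) :
          (arrFlipGraph Q0).Walk ⟨C0, C0_arr⟩ ⟨C4, C4_arr⟩)).exists_walk_length_eq_dist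
      rw [← hq]
      refine four_le_length _ (arr_exchange Q0) _ _ (by decide +kernel) ?_ q
      intro a ha b hb
      rw [isArrangement_iff]
      revert a b
      decide +kernel
    · exact SimpleGraph.dist_le _
  · simp [SimpleGraph.Walk.darts_cons]
  · show (7 : Fin 12) ∈ C0
    decide +kernel
  · show (7 : Fin 12) ∉ C1
    decide +kernel

/-- **Disproof of Q1 of MP_1d99bd.**  (A) In the flip graph of the `2`-triangulations of the
convex octagon there is a shortest path that flips an edge common to its two end points.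
(B) There is a primitive sorting network such that, in the flip graph of the pseudoline
arrangements (with contact points) supported by it, some shortest path flips a contact point
common to its two end points. -/
theorem result :
    ShortestPathFlipsCommon (triFlipGraph 2 8) Subtype.val ∧
    ∃ (m L : ℕ) (Q : Fin L → Fin m), ShortestPathFlipsCommon (arrFlipGraph Q) Subtype.val :=
  ⟨octagon, 3, 12, Q0, network⟩

end Pool.Agent.Results.MP_1d99bd_co.CommonFlip
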